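import Mathlib
import Pool.Agent.Helper82.OS.polar
import Pool.Agent.W546.N4.Defs

/-! # Radial integrals: reduction to one-dimensional integrals -/

set_option autoImplicit false
open Matrix MeasureTheory Set Metric Filter Topology
open scoped ENNReal Nat

namespace Pool.Agent.W191.N4
open Pool.Agent.Helper82.OS Pool.Agent.W546.ST Pool.Agent.W546.N4

/-- the map `(v, y) ↦ (y, v)` -/
noncomputable def sp (p : ℝ × E 4) : E 5 :=
  WithLp.toLp 2 ((MeasurableEquiv.piFinSuccAbove (fun _ : Fin 5 => ℝ) (Fin.last 4)).symm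
    (p.1, p.2.ofLp))

theorem sp_mp : MeasurePreserving sp (volume.prod volume) volume := by
  have m1 : MeasurePreserving (Prod.map id WithLp.ofLp : ℝ × E 4 → ℝ × (Fin 4 → ℝ))
      (volume.prod volume) (volume.prod volume) :=
    (MeasurePreserving.id volume).prod (PiLp.volume_preserving_ofLp (Fin 4))
  have m2 := (volume_preserving_piFinSuccAbove (fun _ : Fin 5 => ℝ) (Fin.last 4)).symm
  have m3 := PiLp.volume_preserving_toLp (Fin 5)
  exact m3.comp (m2.comp m1)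

theorem sp_last (p : ℝ × E 4) : sp p 4 = p.1 := by
  show (Fin.insertNth (α := fun _ : Fin 5 => ℝ) (Fin.last 4) p.1 p.2.ofLp) (Fin.last 4) = p.1
  rw [Fin.insertNth_apply_same]

theorem sp_cast (p : ℝ × E 4) (i : Fin 4) : sp p i.castSucc = p.2 i := by
  show (Fin.insertNth (α := fun _ : Fin 5 => ℝ) (Fin.last 4) p.1 p.2.ofLp) i.castSucc = p.2 i
  rw [← Fin.succAbove_last_apply, Fin.insertNth_apply_succAbove]

theorem uu_sp (p : ℝ × E 4) : W546.N4.uu (sp p) = ‖p.2‖ ^ 2 := by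
  unfold W546.N4.uu
  simp only [sp_cast]
  rw [EuclideanSpace.norm_sq_eq]
  simp

theorem norm_sp (p : ℝ × E 4) : ‖sp p‖ ^ 2 = ‖p.2‖ ^ 2 + p.1 ^ 2 := by
  rw [EuclideanSpace.norm_sq_eq, Fin.sum_univ_castSucc]
  simp only [sp_cast]
  have : sp p (Fin.last 4) = p.1 := sp_last p
  rw [this, EuclideanSpace.norm_sq_eq]
  simp

/-- the inner integral -/
noncomputable def hh (f : ℝ → ℝ → ℝ) (u : ℝ) : ℝ≥0∞ :=
  ∫⁻ t : ℝ, ENNReal.ofReal (f t u * (gt t * Real.exp (-(u / 2))))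

theorem gt_meas : Measurable gt := by
  unfold gt
  fun_prop

theorem gw_meas {k : ℕ} : Measurable (gw : E k → ℝ) := by
  unfold gw
  fun_prop

theorem hh_meas (f : ℝ → ℝ → ℝ) (hf : Measurable fun p : ℝ × ℝ => f p.1 p.2) :
    Measurable (hh f) := by
  unfold hh
  apply Measurable.lintegral_prod_right
  have h1 : Measurable fun p : ℝ × ℝ => f p.2 p.1 := hf.comp measurable_swap
  have h2 : Measurable fun p : ℝ × ℝ => gt p.2 := gt_meas.comp measurable_snd
  unfold Function.uncurry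
  fun_prop

theorem ball4 : (sg 4) univ = ENNReal.ofReal (2 * Real.pi ^ 2) := by
  rw [sg, Measure.toSphere_apply_univ, EuclideanSpace.volume_ball]
  simp only [finrank_euclideanSpace_fin, Fintype.card_fin, ENNReal.ofReal_one, one_pow, one_mul]
  have h1 : ((4 : ℕ) : ℝ) / 2 + 1 = (2 : ℕ) + 1 := by norm_num
  rw [h1, Real.Gamma_nat_eq_factorial]
  have h2 : √Real.pi ^ 4 = Real.pi ^ 2 := by
    rw [show (4 : ℕ) = 2 * 2 from rfl, pow_mul, Real.sq_sqrt Real.pi_pos.le]
  rw [h2]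
  have h3 : ((4 : ℕ) : ℝ≥0∞) = ENNReal.ofReal 4 := by simp
  rw [h3, ← ENNReal.ofReal_mul (by norm_num)]
  congr 1
  simp [Nat.factorial]
  ring

/-- substitution `y = t²` on a half line -/
theorem sq_sub (k : ℝ → ℝ≥0∞) : ∫⁻ t in Ioi (0 : ℝ), ENNReal.ofReal (2 * t) * k (t ^ 2) =
    ∫⁻ y in Ioi (0 : ℝ), k y := by
  have himg : (fun t : ℝ => t ^ 2) '' Ioi (0 : ℝ) = Ioi (0 : ℝ) := by
    ext y
    constructor
    · rintro ⟨t, ht, rfl⟩
      have : (0 : ℝ) < t := ht
      show (0 : ℝ) < t ^ 2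
      positivity
    · intro hy
      have hy' : (0 : ℝ) < y := hy
      exact ⟨√y, Real.sqrt_pos.2 hy', Real.sq_sqrt hy'.le⟩
  have h := lintegral_image_eq_lintegral_abs_deriv_mul (s := Ioi (0 : ℝ)) (f := fun t : ℝ => t ^ 2)
    (f' := fun t => 2 * t) measurableSet_Ioi
    (fun x _ => by simpa using (hasDerivAt_pow 2 x).hasDerivWithinAt)
    (fun x hx y hy hxy => by
      have hx' : (0 : ℝ) < x := hx
      have hy' : (0 : ℝ) < y := hy
      have : x ^ 2 = y ^ 2 := hxy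
      exact (sq_eq_sq₀ hx'.le hy'.le).1 this) k
  rw [himg] at h
  rw [h]
  refine setLIntegral_congr_fun measurableSet_Ioi fun t ht => ?_
  have : (0 : ℝ) < t := ht
  rw [abs_of_pos (by linarith)]

theorem half (k : ℝ → ℝ≥0∞) : ∫⁻ t : ℝ, ENNReal.ofReal |t| * k (t ^ 2) =
    ∫⁻ y in Ioi (0 : ℝ), k y := by
  have e : (fun t : ℝ => ENNReal.ofReal |t| * k (t ^ 2)) = fun t =>
      ENNReal.ofReal |t| * k (t ^ 2) := rfl
  have h1 : ∫⁻ t : ℝ, ENNReal.ofReal |t| * k (t ^ 2) =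
      (∫⁻ t in Ioi (0 : ℝ), ENNReal.ofReal |t| * k (t ^ 2)) +
        ∫⁻ t in Iio (0 : ℝ), ENNReal.ofReal |t| * k (t ^ 2) := by
    rw [← lintegral_add_compl _ (measurableSet_Ioi (a := (0 : ℝ)))]
    congr 1
    rw [compl_Ioi]
    exact setLIntegral_congr Iio_ae_eq_Iic.symm
  have h2 : ∫⁻ t in Iio (0 : ℝ), ENNReal.ofReal |t| * k (t ^ 2) =
      ∫⁻ t in Ioi (0 : ℝ), ENNReal.ofReal |t| * k (t ^ 2) := by
    have hmp := (Measure.measurePreserving_neg (volume : Measure ℝ)).restrict_preimage_emb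
      (MeasurableEquiv.neg ℝ).measurableEmbedding (Ioi (0 : ℝ))
    have := hmp.lintegral_comp_emb (MeasurableEquiv.neg ℝ).measurableEmbedding
      (fun t => ENNReal.ofReal |t| * k (t ^ 2))
    rw [← this]
    have e1 : (Neg.neg ⁻¹' Ioi (0 : ℝ)) = Iio (0 : ℝ) := by
      ext x
      simp
    rw [e1]
    refine setLIntegral_congr_fun measurableSet_Iio fun t _ => ?_
    simp
  have h3 : ∫⁻ t in Ioi (0 : ℝ), ENNReal.ofReal (2 * t) * k (t ^ 2) =
      2 * ∫⁻ t in Ioi (0 : ℝ), ENNReal.ofReal |t| * k (t ^ 2) := by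
    rw [← lintegral_const_mul' _ _ (by simp)]
    refine setLIntegral_congr_fun measurableSet_Ioi fun t ht => ?_
    have : (0 : ℝ) < t := ht
    rw [abs_of_pos this, ENNReal.ofReal_mul (by norm_num), mul_assoc]
    simp
  rw [h1, h2, ← sq_sub k, h3, two_mul]

theorem rad4 (h : ℝ → ℝ≥0∞) (hm : Measurable h) : ∫⁻ y : E 4, h (‖y‖ ^ 2) =
    ENNReal.ofReal (Real.pi ^ 2) * ∫⁻ u in Ioi (0 : ℝ), ENNReal.ofReal u * h u := by
  have hp := polar (k := 4) (by norm_num) (fun r => h (r ^ 2)) (hm.comp (by fun_prop))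
    (fun _ => 1) measurable_const 0 (fun r _ z => by simp)
  simp only [mul_one, lintegral_const, one_mul] at hp
  rw [hp, ball4, ← sq_sub (fun u => ENNReal.ofReal u * h u), mul_comm]
  have e : ∫⁻ t in Ioi (0 : ℝ), ENNReal.ofReal (2 * t) * (ENNReal.ofReal (t ^ 2) * h (t ^ 2)) =
      2 * ∫⁻ r in Ioi (0 : ℝ), h (r ^ 2) * ENNReal.ofReal (r ^ (0 + (4 - 1))) := by
    rw [← lintegral_const_mul' _ _ (by simp)]
    refine setLIntegral_congr_fun measurableSet_Ioi fun t ht => ?_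
    have ht' : (0 : ℝ) < t := ht
    rw [← mul_assoc, ← ENNReal.ofReal_mul (by positivity), mul_comm (h _), ← mul_assoc]
    congr 1
    rw [show (2 : ℝ≥0∞) = ENNReal.ofReal 2 by simp, ← ENNReal.ofReal_mul (by norm_num)]
    congr 1
    ring
  rw [e, ← mul_assoc]
  congr 1
  rw [show (2 : ℝ≥0∞) = ENNReal.ofReal 2 by simp, ← ENNReal.ofReal_mul (by positivity)]
  congr 1
  ring

/-- reduction of the six-dimensional integral -/
theorem red (f : ℝ → ℝ → ℝ) (g : ℝ → ℝ) (hf : Measurable fun p : ℝ × ℝ => f p.1 p.2)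
    (hg : Measurable g) (hg0 : ∀ v, 0 ≤ g v) :
    II (fun t u v => f t u * g v) = (∫⁻ v : ℝ, ENNReal.ofReal (g v * gt v)) *
      (ENNReal.ofReal (Real.pi ^ 2) * ∫⁻ u in Ioi (0 : ℝ), ENNReal.ofReal u * hh f u) := by
  unfold II
  have hΦ : Measurable fun w : E 5 => ∫⁻ t : ℝ,
      ENNReal.ofReal (f t (W546.N4.uu w) * g (w 4) * (gt t * gw w)) := by
    apply Measurable.lintegral_prod_right
    have h0 : Measurable fun w : E 5 => W546.N4.uu w := by
      unfold W546.N4.uu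
      fun_prop
    have h1 : Measurable fun p : E 5 × ℝ => f p.2 (W546.N4.uu p.1) :=
      hf.comp (measurable_snd.prodMk (h0.comp measurable_fst))
    have h2 : Measurable fun p : E 5 × ℝ => gt p.2 := gt_meas.comp measurable_snd
    have h3 : Measurable fun p : E 5 × ℝ => gw p.1 := gw_meas.comp measurable_fst
    have h4 : Measurable fun p : E 5 × ℝ => g (p.1 4) :=
      hg.comp (by fun_prop)
    unfold Function.uncurry
    fun_prop
  rw [← sp_mp.lintegral_comp hΦ]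
  have e : ∀ p : ℝ × E 4, ∫⁻ t : ℝ,
      ENNReal.ofReal (f t (W546.N4.uu (sp p)) * g (sp p 4) * (gt t * gw (sp p))) =
      ENNReal.ofReal (g p.1 * gt p.1) * hh f (‖p.2‖ ^ 2) := by
    intro p
    unfold hh
    rw [← lintegral_const_mul' _ _ (by simp)]
    refine lintegral_congr fun t => ?_
    have hgt : 0 ≤ g p.1 * gt p.1 := mul_nonneg (hg0 _) (Real.exp_pos _).le
    rw [← ENNReal.ofReal_mul hgt, uu_sp, sp_last]
    congr 1
    have : gw (sp p) = gt p.1 * Real.exp (-(‖p.2‖ ^ 2 / 2)) := by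
      unfold gw gt
      rw [norm_sp, ← Real.exp_add]
      congr 1
      ring
    rw [this]
    ring
  simp only [e]
  have hg1 : Measurable fun v : ℝ => ENNReal.ofReal (g v * gt v) := by
    have := gt_meas
    fun_prop
  have hg2 : Measurable fun y : E 4 => hh f (‖y‖ ^ 2) := (hh_meas f hf).comp (by fun_prop)
  rw [lintegral_prod_mul (f := fun v : ℝ => ENNReal.ofReal (g v * gt v))
    (g := fun y : E 4 => hh f (‖y‖ ^ 2)) hg1.aemeasurable hg2.aemeasurable,
    rad4 (hh f) (hh_meas f hf)]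

end Pool.Agent.W191.N4
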