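import Mathlib
import Pool.Agent.W191.N4.RadA

/-! # Radial integrals: evaluation -/

set_option autoImplicit false
open Matrix MeasureTheory Set Metric Filter Topology
open scoped ENNReal Nat

namespace Pool.Agent.W191.N4
open Pool.Agent.Helper82.OS Pool.Agent.W546.ST Pool.Agent.W546.N4

theorem gam (a : ℝ) (ha : 0 < a) :
    ∫⁻ s in Ioi (0 : ℝ), ENNReal.ofReal (s ^ (a - 1) * Real.exp (-(s / 2))) =
      ENNReal.ofReal (2 ^ a * Real.Gamma a) := by
  have h1 := Real.integral_rpow_mul_exp_neg_mul_Ioi ha (r := 1 / 2) (by norm_num)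
  have h2 : IntegrableOn (fun x : ℝ => x ^ (a - 1) * Real.exp (-(1 / 2) * x ^ (1 : ℝ)))
      (Ioi 0) := integrableOn_rpow_mul_exp_neg_mul_rpow (by linarith) one_pos (by norm_num)
  have e : ∀ s : ℝ, s ^ (a - 1) * Real.exp (-(1 / 2) * s ^ (1 : ℝ)) =
      s ^ (a - 1) * Real.exp (-(s / 2)) := by
    intro s
    rw [Real.rpow_one]
    congr 2
    ring
  simp only [e] at h2
  have e' : ∀ s : ℝ, s ^ (a - 1) * Real.exp (-(1 / 2 * s)) =
      s ^ (a - 1) * Real.exp (-(s / 2)) := by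
    intro s
    congr 2
    ring
  simp only [e'] at h1
  rw [← ofReal_integral_eq_lintegral_ofReal h2, h1]
  · norm_num
  · refine (ae_restrict_iff' measurableSet_Ioi).2 (Eventually.of_forall fun s hs => ?_)
    have : (0 : ℝ) < s := hs
    positivity

theorem HS (n : ℕ) : ∫⁻ s in Ioi (0 : ℝ), ENNReal.ofReal (√s * s ^ n * Real.exp (-(s / 2))) =
    ENNReal.ofReal (r2p * ((2 * n + 1 : ℕ)‼ : ℝ)) := by
  have h := gam (n + 1 + 1 / 2) (by positivity)
  have e : ∫⁻ s in Ioi (0 : ℝ), ENNReal.ofReal (√s * s ^ n * Real.exp (-(s / 2))) =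
      ∫⁻ s in Ioi (0 : ℝ), ENNReal.ofReal (s ^ (((n : ℝ) + 1 + 1 / 2) - 1) *
        Real.exp (-(s / 2))) := by
    refine setLIntegral_congr_fun measurableSet_Ioi fun s hs => ?_
    have hs' : (0 : ℝ) < s := hs
    have : s ^ (((n : ℝ) + 1 + 1 / 2) - 1) = √s * s ^ n := by
      rw [show ((n : ℝ) + 1 + 1 / 2) - 1 = 1 / 2 + (n : ℝ) by ring, Real.rpow_add hs',
        Real.rpow_natCast, Real.sqrt_eq_rpow]
    rw [this]
  rw [e, h]
  congr 1
  have h2 : (2 : ℝ) ^ ((n : ℝ) + 1 + 1 / 2) = 2 ^ (n + 1) * √2 := by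
    rw [Real.rpow_add (by norm_num), Real.sqrt_eq_rpow]
    congr 1
    rw [← Real.rpow_natCast]
    push_cast
    rfl
  rw [Real.Gamma_nat_add_one_add_half, h2]
  unfold r2p
  rw [Real.sqrt_mul (by norm_num)]
  field_simp

theorem HI : ∫⁻ s in Ioi (0 : ℝ), ENNReal.ofReal (1 / √s * Real.exp (-(s / 2))) =
    ENNReal.ofReal r2p := by
  have h := gam (1 / 2) (by positivity)
  have e : ∫⁻ s in Ioi (0 : ℝ), ENNReal.ofReal (1 / √s * Real.exp (-(s / 2))) =
      ∫⁻ s in Ioi (0 : ℝ), ENNReal.ofReal (s ^ ((1 / 2 : ℝ) - 1) *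
        Real.exp (-(s / 2))) := by
    refine setLIntegral_congr_fun measurableSet_Ioi fun s hs => ?_
    have hs' : (0 : ℝ) < s := hs
    have : s ^ ((1 / 2 : ℝ) - 1) = 1 / √s := by
      rw [show (1 / 2 : ℝ) - 1 = -(1 / 2) by norm_num, Real.rpow_neg hs'.le, Real.sqrt_eq_rpow,
        one_div (s ^ (1 / 2 : ℝ))]
    rw [this]
  rw [e, h]
  congr 1
  rw [Real.Gamma_one_half_eq, ← Real.sqrt_eq_rpow]
  unfold r2p
  rw [Real.sqrt_mul (by norm_num)]

theorem HN (n : ℕ) : ∫⁻ s in Ioi (0 : ℝ), ENNReal.ofReal (s ^ n * Real.exp (-(s / 2))) =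
    ENNReal.ofReal (2 ^ (n + 1) * (n ! : ℝ)) := by
  have h := gam (n + 1) (by positivity)
  have e : ∫⁻ s in Ioi (0 : ℝ), ENNReal.ofReal (s ^ n * Real.exp (-(s / 2))) =
      ∫⁻ s in Ioi (0 : ℝ), ENNReal.ofReal (s ^ (((n : ℝ) + 1) - 1) *
        Real.exp (-(s / 2))) := by
    refine setLIntegral_congr_fun measurableSet_Ioi fun s hs => ?_
    rw [add_sub_cancel_right, Real.rpow_natCast]
  rw [e, h, Real.Gamma_nat_eq_factorial]
  congr 2
  rw [← Real.rpow_natCast]
  push_cast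
  rfl

theorem V0 : ∫⁻ v : ℝ, ENNReal.ofReal (gt v) = ENNReal.ofReal r2p := by
  rw [← HI, ← half]
  refine lintegral_congr_ae ?_
  have : ∀ᵐ v : ℝ, v ≠ 0 := by
    rw [ae_iff]
    simp
  filter_upwards [this] with v hv
  rw [← ENNReal.ofReal_mul (abs_nonneg v), Real.sqrt_sq_eq_abs]
  congr 1
  unfold gt
  have : |v| ≠ 0 := abs_ne_zero.2 hv
  field_simp

theorem VS (m : ℕ) : ∫⁻ v : ℝ, ENNReal.ofReal (v ^ (2 * (m + 1)) * gt v) =
    ENNReal.ofReal (r2p * ((2 * m + 1 : ℕ)‼ : ℝ)) := by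
  rw [← HS, ← half]
  refine lintegral_congr fun v => ?_
  rw [← ENNReal.ofReal_mul (abs_nonneg v), Real.sqrt_sq_eq_abs]
  congr 1
  unfold gt
  have : v ^ (2 * (m + 1)) = |v| * |v| * (v ^ 2) ^ m := by
    rw [abs_mul_abs_self]
    ring
  rw [this]
  ring

/-- integrals without `t` -/
theorem tB (q : ℝ → ℝ) (h0 : ∀ u, 0 < u → 0 ≤ q u) :
    ∫⁻ u in Ioi (0 : ℝ), ENNReal.ofReal u * hh (fun _ u => q u) u =
      ENNReal.ofReal r2p * ∫⁻ u in Ioi (0 : ℝ), ENNReal.ofReal (u * q u * Real.exp (-(u / 2))) := by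
  rw [← lintegral_const_mul' _ _ (by simp)]
  refine setLIntegral_congr_fun measurableSet_Ioi fun u hu => ?_
  have hu' : (0 : ℝ) < u := hu
  unfold hh
  have e : ∀ t : ℝ, ENNReal.ofReal (q u * (gt t * Real.exp (-(u / 2)))) =
      ENNReal.ofReal (q u * Real.exp (-(u / 2))) * ENNReal.ofReal (gt t) := by
    intro t
    rw [← ENNReal.ofReal_mul (mul_nonneg (h0 u hu') (Real.exp_pos _).le)]
    congr 1
    ring
  simp only [e]
  rw [lintegral_const_mul' _ _ (by simp), V0, ← mul_assoc, ← ENNReal.ofReal_mul hu'.le, mul_comm]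
  congr 2
  ring

/-- integrals with `t` -/
theorem tA (f : ℝ → ℝ → ℝ) (q : ℝ → ℝ) (a b : ℕ) (hq : Measurable q) (hq0 : ∀ s, 0 ≤ q s)
    (hf : ∀ t u, f t u = q (t ^ 2 + u) * |t| ^ (2 * a + 1) * u ^ b) :
    ∫⁻ u in Ioi (0 : ℝ), ENNReal.ofReal u * hh f u =
      ∫⁻ s in Ioi (0 : ℝ), ENNReal.ofReal (q s * Real.exp (-(s / 2))) *
        ∫⁻ u in Ioo (0 : ℝ) s, ENNReal.ofReal ((s - u) ^ a * u ^ (b + 1)) := by
  set G : ℝ → ℝ → ℝ≥0∞ := fun u s => {p : ℝ × ℝ | 0 < p.1 ∧ p.1 < p.2}.indicator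
    (fun p => ENNReal.ofReal (q p.2 * Real.exp (-(p.2 / 2)) * ((p.2 - p.1) ^ a * p.1 ^ (b + 1))))
    (u, s) with hG
  have hGm : Measurable (Function.uncurry G) := by
    have : Function.uncurry G = {p : ℝ × ℝ | 0 < p.1 ∧ p.1 < p.2}.indicator
      (fun p => ENNReal.ofReal (q p.2 * Real.exp (-(p.2 / 2)) *
        ((p.2 - p.1) ^ a * p.1 ^ (b + 1)))) := by
      funext p
      rfl
    rw [this]
    refine Measurable.indicator (by fun_prop) ?_
    exact (measurableSet_lt measurable_const measurable_fst).inter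
      (measurableSet_lt measurable_fst measurable_snd)
  have hL : ∫⁻ u in Ioi (0 : ℝ), ENNReal.ofReal u * hh f u = ∫⁻ u, ∫⁻ s, G u s := by
    rw [← lintegral_indicator measurableSet_Ioi]
    refine lintegral_congr fun u => ?_
    by_cases hu : 0 < u
    · rw [indicator_of_mem (show u ∈ Ioi (0 : ℝ) from hu)]
      have h1 : hh f u = ∫⁻ y in Ioi (0 : ℝ),
          ENNReal.ofReal (q (y + u) * y ^ a * u ^ b * Real.exp (-((y + u) / 2))) := by
        rw [← half]
        unfold hh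
        refine lintegral_congr fun t => ?_
        rw [← ENNReal.ofReal_mul (abs_nonneg t), hf]
        congr 1
        unfold gt
        have h2 : Real.exp (-((t ^ 2 + u) / 2)) = Real.exp (-(t ^ 2 / 2)) * Real.exp (-(u / 2)) := by
          rw [← Real.exp_add]
          congr 1
          ring
        have h3 : |t| ^ (2 * a + 1) = |t| * (t ^ 2) ^ a := by
          rw [pow_succ, pow_mul, sq_abs]
          ring
        rw [h2, h3]
        ring
      rw [h1, ← lintegral_const_mul' _ _ (by simp), ← lintegral_indicator measurableSet_Ioi,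
        ← lintegral_add_right_eq_self (fun s => G u s) u]
      refine lintegral_congr fun y => ?_
      by_cases hy : 0 < y
      · rw [indicator_of_mem (show y ∈ Ioi (0 : ℝ) from hy), hG]
        simp only
        rw [indicator_of_mem (show (u, y + u) ∈ {p : ℝ × ℝ | 0 < p.1 ∧ p.1 < p.2} from
          ⟨hu, by show u < y + u; linarith⟩), ← ENNReal.ofReal_mul hu.le]
        congr 1
        rw [add_sub_cancel_right]
        ring
      · rw [indicator_of_notMem (show y ∉ Ioi (0 : ℝ) from hy), hG]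
        simp only
        rw [indicator_of_notMem]
        rintro ⟨_, h⟩
        have h' : u < y + u := h
        exact hy (by linarith)
    · rw [indicator_of_notMem (show u ∉ Ioi (0 : ℝ) from hu)]
      symm
      rw [lintegral_eq_zero_iff' (by
        exact (hGm.comp (measurable_const.prodMk measurable_id)).aemeasurable)]
      refine Eventually.of_forall fun s => ?_
      simp only [hG, Pi.zero_apply]
      rw [indicator_of_notMem]
      rintro ⟨h, _⟩
      exact hu h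
  have hR : ∫⁻ s in Ioi (0 : ℝ), ENNReal.ofReal (q s * Real.exp (-(s / 2))) *
      ∫⁻ u in Ioo (0 : ℝ) s, ENNReal.ofReal ((s - u) ^ a * u ^ (b + 1)) =
      ∫⁻ s, ∫⁻ u, G u s := by
    rw [← lintegral_indicator measurableSet_Ioi]
    refine lintegral_congr fun s => ?_
    by_cases hs : 0 < s
    · rw [indicator_of_mem (show s ∈ Ioi (0 : ℝ) from hs), ← lintegral_const_mul' _ _ (by simp),
        ← lintegral_indicator measurableSet_Ioo]
      refine lintegral_congr fun u => ?_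
      by_cases hu : u ∈ Ioo (0 : ℝ) s
      · rw [indicator_of_mem hu, hG]
        simp only
        rw [indicator_of_mem (show (u, s) ∈ {p : ℝ × ℝ | 0 < p.1 ∧ p.1 < p.2} from hu),
          ← ENNReal.ofReal_mul (mul_nonneg (hq0 s) (Real.exp_pos _).le)]
      · rw [indicator_of_notMem hu, hG]
        simp only
        rw [indicator_of_notMem (show (u, s) ∉ {p : ℝ × ℝ | 0 < p.1 ∧ p.1 < p.2} from hu)]
    · rw [indicator_of_notMem (show s ∉ Ioi (0 : ℝ) from hs)]
      symm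
      rw [lintegral_eq_zero_iff' (by
        exact (hGm.comp (measurable_id.prodMk measurable_const)).aemeasurable)]
      refine Eventually.of_forall fun u => ?_
      simp only [hG, Pi.zero_apply]
      rw [indicator_of_notMem]
      rintro ⟨h, h'⟩
      exact hs (lt_trans h h')
  rw [hL, hR, lintegral_lintegral_swap hGm.aemeasurable]

/-- inner integral from a primitive -/
theorem inn (s : ℝ) (hs : 0 < s) (p P : ℝ → ℝ) (hp : Continuous p) (hp0 : ∀ u ∈ Ioo (0 : ℝ) s, 0 ≤ p u)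
    (hP : ∀ u, HasDerivAt P (p u) u) :
    ∫⁻ u in Ioo (0 : ℝ) s, ENNReal.ofReal (p u) = ENNReal.ofReal (P s - P 0) := by
  rw [← ofReal_integral_eq_lintegral_ofReal]
  · congr 1
    rw [← integral_Ioc_eq_integral_Ioo, ← intervalIntegral.integral_of_le hs.le]
    exact intervalIntegral.integral_eq_sub_of_hasDerivAt (fun u _ => hP u)
      (hp.intervalIntegrable _ _)
  · exact (hp.integrableOn_Icc (a := 0) (b := s)).mono_set Ioo_subset_Icc_self
  · exact (ae_restrict_iff' measurableSet_Ioo).2 (Eventually.of_forall hp0)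

theorem in0 (s : ℝ) (hs : 0 < s) (m : ℕ) :
    ∫⁻ u in Ioo (0 : ℝ) s, ENNReal.ofReal ((s - u) ^ 0 * u ^ m) =
      ENNReal.ofReal (s ^ (m + 1) / (m + 1)) := by
  rw [inn s hs (fun u => (s - u) ^ 0 * u ^ m) (fun u => u ^ (m + 1) / (m + 1)) (by fun_prop)]
  · simp
  · intro u hu
    have := hu.1
    positivity
  · intro u
    have h := (hasDerivAt_pow (m + 1) u).div_const ((m : ℝ) + 1)
    refine h.congr_deriv ?_
    have : (m : ℝ) + 1 ≠ 0 := by positivity
    push_cast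
    field_simp

theorem in1 (s : ℝ) (hs : 0 < s) :
    ∫⁻ u in Ioo (0 : ℝ) s, ENNReal.ofReal ((s - u) ^ 1 * u ^ 1) =
      ENNReal.ofReal (s ^ 3 / 6) := by
  rw [inn s hs (fun u => (s - u) ^ 1 * u ^ 1) (fun u => s * u ^ 2 / 2 - u ^ 3 / 3) (by fun_prop)]
  · congr 1
    ring
  · intro u hu
    have h1 := hu.1
    have h2 : 0 < s - u := by linarith [hu.2]
    positivity
  · intro u
    have h := (((hasDerivAt_pow 2 u).const_mul s).div_const 2).sub ((hasDerivAt_pow 3 u).div_const 3)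
    refine h.congr_deriv ?_
    norm_num
    ring

/-- value of `tA` -/
theorem tA' (f : ℝ → ℝ → ℝ) (q : ℝ → ℝ) (a b n : ℕ) (C : ℝ) (hq : Measurable q) (hq0 : ∀ s, 0 ≤ q s)
    (hf : ∀ t u, f t u = q (t ^ 2 + u) * |t| ^ (2 * a + 1) * u ^ b) (hC : 0 ≤ C)
    (h : ∀ s : ℝ, 0 < s → ENNReal.ofReal (q s * Real.exp (-(s / 2))) *
      ∫⁻ u in Ioo (0 : ℝ) s, ENNReal.ofReal ((s - u) ^ a * u ^ (b + 1)) =
        ENNReal.ofReal (C * (√s * s ^ n * Real.exp (-(s / 2))))) :
    ∫⁻ u in Ioi (0 : ℝ), ENNReal.ofReal u * hh f u =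
      ENNReal.ofReal (C * (r2p * ((2 * n + 1 : ℕ)‼ : ℝ))) := by
  rw [tA f q a b hq hq0 hf, setLIntegral_congr_fun measurableSet_Ioi fun s hs => h s hs]
  have e : ∀ s : ℝ, ENNReal.ofReal (C * (√s * s ^ n * Real.exp (-(s / 2)))) =
      ENNReal.ofReal C * ENNReal.ofReal (√s * s ^ n * Real.exp (-(s / 2))) := fun s =>
    ENNReal.ofReal_mul hC
  simp only [e]
  rw [lintegral_const_mul' _ _ (by simp), HS, ← ENNReal.ofReal_mul hC]

/-- value of `tB` -/
theorem tB' (q : ℝ → ℝ) (w : ℝ → ℝ) (C K : ℝ) (h0 : ∀ u, 0 < u → 0 ≤ q u) (hC : 0 ≤ C)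
    (h : ∀ u : ℝ, 0 < u → u * q u * Real.exp (-(u / 2)) = C * w u)
    (hw : ∫⁻ u in Ioi (0 : ℝ), ENNReal.ofReal (w u) = ENNReal.ofReal K) :
    ∫⁻ u in Ioi (0 : ℝ), ENNReal.ofReal u * hh (fun _ u => q u) u =
      ENNReal.ofReal (r2p * (C * K)) := by
  have hr : 0 ≤ r2p := Real.sqrt_nonneg _
  rw [tB q h0, setLIntegral_congr_fun measurableSet_Ioi fun u hu => by rw [h u hu]]
  have e : ∀ s : ℝ, ENNReal.ofReal (C * w s) = ENNReal.ofReal C * ENNReal.ofReal (w s) := fun s =>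
    ENNReal.ofReal_mul hC
  simp only [e]
  rw [lintegral_const_mul' _ _ (by simp), hw, ← ENNReal.ofReal_mul hC, ← ENNReal.ofReal_mul hr]

end Pool.Agent.W191.N4
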