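import Mathlib
import Pool.Agent.W191.N4.RadB

/-! # Radial integrals -/

set_option autoImplicit false
open Matrix MeasureTheory Set Metric Filter Topology
open scoped ENNReal Nat

namespace Pool.Agent.W191.N4
open Pool.Agent.Helper82.OS Pool.Agent.W546.ST Pool.Agent.W546.N4

theorem r2p_nn : 0 ≤ r2p := Real.sqrt_nonneg _

theorem r2p_sq : r2p * r2p = 2 * Real.pi := Real.mul_self_sqrt (by positivity)

/-- assembly -/
theorem asm {A B : ℝ≥0∞} {a b x : ℝ} (hA : A = ENNReal.ofReal a) (hB : B = ENNReal.ofReal b)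
    (ha : 0 ≤ a) (hx : a * (Real.pi ^ 2 * b) = x) :
    A * (ENNReal.ofReal (Real.pi ^ 2) * B) = ENNReal.ofReal x := by
  rw [hA, hB, ← ENNReal.ofReal_mul (by positivity), ← ENNReal.ofReal_mul ha, hx]

theorem m0 : ∫⁻ v : ℝ, ENNReal.ofReal (1 * gt v) = ENNReal.ofReal r2p := by
  simp only [one_mul]
  exact V0

theorem m2 : ∫⁻ v : ℝ, ENNReal.ofReal (v ^ 2 * gt v) = ENNReal.ofReal r2p := by
  have := VS 0
  simpa using this

theorem m4 : ∫⁻ v : ℝ, ENNReal.ofReal (v ^ 4 * gt v) = ENNReal.ofReal (r2p * 3) := by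
  have := VS 1
  norm_num [Nat.doubleFactorial] at this
  exact this

theorem m6 : ∫⁻ v : ℝ, ENNReal.ofReal (v ^ 6 * gt v) = ENNReal.ofReal (r2p * 15) := by
  have := VS 2
  norm_num [Nat.doubleFactorial] at this
  exact this

theorem red0 (f : ℝ → ℝ → ℝ) (hf : Measurable fun p : ℝ × ℝ => f p.1 p.2) :
    II (fun t u _ => f t u) = (∫⁻ v : ℝ, ENNReal.ofReal (1 * gt v)) *
      (ENNReal.ofReal (Real.pi ^ 2) * ∫⁻ u in Ioi (0 : ℝ), ENNReal.ofReal u * hh f u) := by
  rw [← red f (fun _ => 1) hf measurable_const (fun _ => zero_le_one)]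
  simp

/-- first group -/
theorem c1 : ∫⁻ u in Ioi (0 : ℝ), ENNReal.ofReal u *
    hh (fun t u => Real.sqrt (t ^ 2 + u) * |t| ^ 3) u = ENNReal.ofReal (1 / 6 * (r2p * 105)) := by
  have h := tA' (fun t u => Real.sqrt (t ^ 2 + u) * |t| ^ 3) Real.sqrt 1 0 3 (1 / 6) (by fun_prop)
    (fun s => Real.sqrt_nonneg s) (fun t u => by simp) (by norm_num) (fun s hs => by
      rw [in1 s hs, ← ENNReal.ofReal_mul (by positivity)]
      congr 1
      ring)
  rw [h]
  norm_num [Nat.doubleFactorial]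

theorem c2 : ∫⁻ u in Ioi (0 : ℝ), ENNReal.ofReal u *
    hh (fun t u => Real.sqrt (t ^ 2 + u) * |t| * u) u = ENNReal.ofReal (1 / 3 * (r2p * 105)) := by
  have h := tA' (fun t u => Real.sqrt (t ^ 2 + u) * |t| * u) Real.sqrt 0 1 3 (1 / 3) (by fun_prop)
    (fun s => Real.sqrt_nonneg s) (fun t u => by simp) (by norm_num) (fun s hs => by
      rw [in0 s hs, ← ENNReal.ofReal_mul (by positivity)]
      congr 1
      push_cast
      ring)
  rw [h]
  norm_num [Nat.doubleFactorial]

theorem c3 : ∫⁻ u in Ioi (0 : ℝ), ENNReal.ofReal u *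
    hh (fun t u => Real.sqrt (t ^ 2 + u) * |t|) u = ENNReal.ofReal (1 / 2 * (r2p * 15)) := by
  have h := tA' (fun t u => Real.sqrt (t ^ 2 + u) * |t|) Real.sqrt 0 0 2 (1 / 2) (by fun_prop)
    (fun s => Real.sqrt_nonneg s) (fun t u => by simp) (by norm_num) (fun s hs => by
      rw [in0 s hs, ← ENNReal.ofReal_mul (by positivity)]
      congr 1
      push_cast
      ring)
  rw [h]
  norm_num [Nat.doubleFactorial]

theorem inv_s (s : ℝ) (hs : 0 < s) (n : ℕ) : 1 / √s * s ^ (n + 1) = √s * s ^ n := by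
  have h1 : √s ≠ 0 := (Real.sqrt_pos.2 hs).ne'
  have h2 : √s * √s = s := Real.mul_self_sqrt hs.le
  rw [div_mul_eq_mul_div, one_mul, div_eq_iff h1, pow_succ]
  nth_rewrite 2 [← h2]
  ring

theorem c4 : ∫⁻ u in Ioi (0 : ℝ), ENNReal.ofReal u *
    hh (fun t u => |t| / Real.sqrt (t ^ 2 + u) * u ^ 2) u = ENNReal.ofReal (1 / 4 * (r2p * 105)) := by
  have h := tA' (fun t u => |t| / Real.sqrt (t ^ 2 + u) * u ^ 2) (fun s => 1 / √s) 0 2 3 (1 / 4)
    (by fun_prop) (fun s => by positivity) (fun t u => by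
      show |t| / √(t ^ 2 + u) * u ^ 2 = 1 / √(t ^ 2 + u) * |t| ^ (2 * 0 + 1) * u ^ 2
      ring) (by norm_num)
    (fun s hs => by
      rw [in0 s hs, ← ENNReal.ofReal_mul (by positivity)]
      congr 1
      rw [← inv_s s hs 3]
      push_cast
      ring)
  rw [h]
  norm_num [Nat.doubleFactorial]

theorem c5 : ∫⁻ u in Ioi (0 : ℝ), ENNReal.ofReal u *
    hh (fun t u => |t| / Real.sqrt (t ^ 2 + u) * u) u = ENNReal.ofReal (1 / 3 * (r2p * 15)) := by
  have h := tA' (fun t u => |t| / Real.sqrt (t ^ 2 + u) * u) (fun s => 1 / √s) 0 1 2 (1 / 3)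
    (by fun_prop) (fun s => by positivity) (fun t u => by
      show |t| / √(t ^ 2 + u) * u = 1 / √(t ^ 2 + u) * |t| ^ (2 * 0 + 1) * u ^ 1
      ring) (by norm_num)
    (fun s hs => by
      rw [in0 s hs, ← ENNReal.ofReal_mul (by positivity)]
      congr 1
      rw [← inv_s s hs 2]
      push_cast
      ring)
  rw [h]
  norm_num [Nat.doubleFactorial]

theorem c6 : ∫⁻ u in Ioi (0 : ℝ), ENNReal.ofReal u *
    hh (fun t u => |t| / Real.sqrt (t ^ 2 + u)) u = ENNReal.ofReal (1 / 2 * (r2p * 3)) := by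
  have h := tA' (fun t u => |t| / Real.sqrt (t ^ 2 + u)) (fun s => 1 / √s) 0 0 1 (1 / 2)
    (by fun_prop) (fun s => by positivity) (fun t u => by simp; ring) (by norm_num)
    (fun s hs => by
      rw [in0 s hs, ← ENNReal.ofReal_mul (by positivity)]
      congr 1
      rw [← inv_s s hs 1]
      push_cast
      ring)
  rw [h]
  norm_num [Nat.doubleFactorial]

/-- second group: `q u` with `u * q u = √u * u ^ n` -/
theorem cS (q : ℝ → ℝ) (n : ℕ) (h0 : ∀ u, 0 < u → 0 ≤ q u)
    (h : ∀ u, 0 < u → u * q u = √u * u ^ n) :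
    ∫⁻ u in Ioi (0 : ℝ), ENNReal.ofReal u * hh (fun _ u => q u) u =
      ENNReal.ofReal (r2p * (r2p * ((2 * n + 1 : ℕ)‼ : ℝ))) := by
  have h1 := tB' q (fun u => √u * u ^ n * Real.exp (-(u / 2))) 1 _ h0 zero_le_one
    (fun u hu => by rw [h u hu, one_mul]) (HS n)
  rw [h1, one_mul]

theorem cN (q : ℝ → ℝ) (n : ℕ) (C : ℝ) (hC : 0 ≤ C) (h0 : ∀ u, 0 < u → 0 ≤ q u)
    (h : ∀ u, 0 < u → u * q u = C * u ^ n) :
    ∫⁻ u in Ioi (0 : ℝ), ENNReal.ofReal u * hh (fun _ u => q u) u =
      ENNReal.ofReal (r2p * (C * (2 ^ (n + 1) * (n ! : ℝ)))) :=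
  tB' q (fun u => u ^ n * Real.exp (-(u / 2))) C _ h0 hC
    (fun u hu => by rw [h u hu]; ring) (HN n)

/-- sum of two weights -/
theorem II_add (F G : ℝ → ℝ → ℝ → ℝ)
    (hF : Measurable fun p : ℝ × ℝ × ℝ => F p.1 p.2.1 p.2.2)
    (hF0 : ∀ t u v, 0 ≤ u → 0 ≤ F t u v) (hG0 : ∀ t u v, 0 ≤ u → 0 ≤ G t u v) :
    II (fun t u v => F t u v + G t u v) = II F + II G := by
  have h0 : Measurable fun w : E 5 => W546.N4.uu w := by
    unfold W546.N4.uu
    fun_prop
  have hm : Measurable fun p : E 5 × ℝ =>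
      ENNReal.ofReal (F p.2 (W546.N4.uu p.1) (p.1 4) * (gt p.2 * gw p.1)) := by
    have h1 : Measurable fun p : E 5 × ℝ => F p.2 (W546.N4.uu p.1) (p.1 4) :=
      hF.comp (measurable_snd.prodMk ((h0.comp measurable_fst).prodMk (by fun_prop)))
    have h2 : Measurable fun p : E 5 × ℝ => gt p.2 := gt_meas.comp measurable_snd
    have h3 : Measurable fun p : E 5 × ℝ => gw p.1 := gw_meas.comp measurable_fst
    fun_prop
  have hu : ∀ w : E 5, 0 ≤ W546.N4.uu w := fun w => Finset.sum_nonneg fun i _ => sq_nonneg _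
  unfold II
  rw [← lintegral_add_left (Measurable.lintegral_prod_right hm)]
  refine lintegral_congr fun w => ?_
  have hmw : Measurable fun t : ℝ =>
      ENNReal.ofReal (F t (W546.N4.uu w) (w 4) * (gt t * gw w)) :=
    hm.comp (measurable_const.prodMk measurable_id)
  rw [← lintegral_add_left hmw]
  refine lintegral_congr fun t => ?_
  have hg : 0 ≤ gt t * gw w := mul_nonneg (Real.exp_pos _).le (Real.exp_pos _).le
  rw [← ENNReal.ofReal_add (mul_nonneg (hF0 _ _ _ (hu w)) hg)
    (mul_nonneg (hG0 _ _ _ (hu w)) hg)]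
  congr 1
  ring

theorem RAD : St4_RAD := by
  have hc : c0 = 8 * Real.pi ^ 3 := by
    unfold c0
    ring
  have hr := r2p_sq
  have hr0 := r2p_nn
  have k3 : ((2 * 3 + 1 : ℕ)‼ : ℝ) = 105 := by norm_num [Nat.doubleFactorial]
  have k2 : ((2 * 2 + 1 : ℕ)‼ : ℝ) = 15 := by norm_num [Nat.doubleFactorial]
  have k1 : ((2 * 1 + 1 : ℕ)‼ : ℝ) = 3 := by norm_num [Nat.doubleFactorial]
  have k0 : ((2 * 0 + 1 : ℕ)‼ : ℝ) = 1 := by norm_num [Nat.doubleFactorial]
  refine ⟨?_, ?_, ?_, ?_, ?_, ?_, ?_, ?_, ?_, ?_, ?_, ?_, ?_, ?_, ?_, ?_, ?_⟩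
  · rw [red0 (fun t u => Real.sqrt (t ^ 2 + u) * |t| ^ 3) (by fun_prop)]
    refine asm m0 c1 hr0 ?_
    rw [hc]
    linear_combination (Real.pi ^ 2 * 105 / 6) * hr
  · rw [red0 (fun t u => Real.sqrt (t ^ 2 + u) * |t| * u) (by fun_prop)]
    refine asm m0 c2 hr0 ?_
    rw [hc]
    linear_combination (Real.pi ^ 2 * 105 / 3) * hr
  · rw [red (fun t u => Real.sqrt (t ^ 2 + u) * |t|) (fun v => v ^ 2) (by fun_prop) (by fun_prop)
      (fun v => by positivity)]
    refine asm m2 c3 hr0 ?_
    rw [hc]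
    linear_combination (Real.pi ^ 2 * 15 / 2) * hr
  · rw [red0 (fun t u => |t| / Real.sqrt (t ^ 2 + u) * u ^ 2) (by fun_prop)]
    refine asm m0 c4 hr0 ?_
    rw [hc]
    linear_combination (Real.pi ^ 2 * 105 / 4) * hr
  · have e : (fun t u v : ℝ => |t| / Real.sqrt (t ^ 2 + u) * (u * v ^ 2)) =
        fun t u v : ℝ => (|t| / Real.sqrt (t ^ 2 + u) * u) * v ^ 2 := by
      funext t u v
      ring
    rw [e, red (fun t u => |t| / Real.sqrt (t ^ 2 + u) * u) (fun v => v ^ 2) (by fun_prop)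
      (by fun_prop) (fun v => by positivity)]
    refine asm m2 c5 hr0 ?_
    rw [hc]
    linear_combination (Real.pi ^ 2 * 15 / 3) * hr
  · rw [red (fun t u => |t| / Real.sqrt (t ^ 2 + u)) (fun v => v ^ 4) (by fun_prop)
      (by fun_prop) (fun v => by positivity)]
    refine asm m4 c6 (by positivity) ?_
    rw [hc]
    linear_combination (Real.pi ^ 2 * 9 / 2) * hr
  · rw [red0 (fun _ u => Real.sqrt u * u ^ 2) (by fun_prop)]
    refine asm m0 (cS (fun u => Real.sqrt u * u ^ 2) 3 (fun u hu => by positivity)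
      (fun u hu => by ring)) hr0 ?_
    rw [hc, k3]
    linear_combination (Real.pi ^ 2 * 105 * r2p) * hr
  · have e : (fun _ u v : ℝ => Real.sqrt u * (u * v ^ 2)) =
        fun _ u v : ℝ => (Real.sqrt u * u) * v ^ 2 := by
      funext t u v
      ring
    rw [e, red (fun _ u => Real.sqrt u * u) (fun v => v ^ 2) (by fun_prop) (by fun_prop)
      (fun v => by positivity)]
    refine asm m2 (cS (fun u => Real.sqrt u * u) 2 (fun u hu => by positivity)
      (fun u hu => by ring)) hr0 ?_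
    rw [hc, k2]
    linear_combination (Real.pi ^ 2 * 15 * r2p) * hr
  · rw [red (fun _ u => Real.sqrt u) (fun v => v ^ 4) (by fun_prop) (by fun_prop)
      (fun v => by positivity)]
    refine asm m4 (cS (fun u => Real.sqrt u) 1 (fun u hu => by positivity)
      (fun u hu => by ring)) (by positivity) ?_
    rw [hc, k1]
    linear_combination (Real.pi ^ 2 * 9 * r2p) * hr
  · rw [red0 (fun _ u => Real.sqrt u * u) (by fun_prop)]
    refine asm m0 (cS (fun u => Real.sqrt u * u) 2 (fun u hu => by positivity)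
      (fun u hu => by ring)) hr0 ?_
    rw [hc, k2]
    linear_combination (Real.pi ^ 2 * 15 * r2p) * hr
  · rw [red (fun _ u => Real.sqrt u) (fun v => v ^ 2) (by fun_prop) (by fun_prop)
      (fun v => by positivity)]
    refine asm m2 (cS (fun u => Real.sqrt u) 1 (fun u hu => by positivity)
      (fun u hu => by ring)) hr0 ?_
    rw [hc, k1]
    linear_combination (Real.pi ^ 2 * 3 * r2p) * hr
  · rw [red0 (fun _ u => 1 / Real.sqrt u * u ^ 2) (by fun_prop)]
    refine asm m0 (cS (fun u => 1 / Real.sqrt u * u ^ 2) 2 (fun u hu => by positivity)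
      (fun u hu => by rw [inv_s u hu 1]; ring)) hr0 ?_
    rw [hc, k2]
    linear_combination (Real.pi ^ 2 * 15 * r2p) * hr
  · have e : (fun _ u v : ℝ => 1 / Real.sqrt u * (u * v ^ 2)) =
        fun _ u v : ℝ => (1 / Real.sqrt u * u) * v ^ 2 := by
      funext t u v
      ring
    rw [e, red (fun _ u => 1 / Real.sqrt u * u) (fun v => v ^ 2) (by fun_prop) (by fun_prop)
      (fun v => by positivity)]
    refine asm m2 (cS (fun u => 1 / Real.sqrt u * u) 1 (fun u hu => by positivity)
      (fun u hu => by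
        have := inv_s u hu 1
        rw [← this]
        ring)) hr0 ?_
    rw [hc, k1]
    linear_combination (Real.pi ^ 2 * 3 * r2p) * hr
  · rw [red (fun _ u => 1 / Real.sqrt u) (fun v => v ^ 4) (by fun_prop) (by fun_prop)
      (fun v => by positivity)]
    refine asm m4 (cS (fun u => 1 / Real.sqrt u) 0 (fun u hu => by positivity)
      (fun u hu => by
        have := inv_s u hu 0
        rw [← this]
        ring)) (by positivity) ?_
    rw [hc, k0]
    linear_combination (Real.pi ^ 2 * 3 * r2p) * hr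
  · have e : (fun _ u v : ℝ => (1 + v ^ 2 / (2 * u)) * u ^ 2) =
        fun _ u v : ℝ => u ^ 2 * 1 + (u ^ 2 / (2 * u)) * v ^ 2 := by
      funext t u v
      ring
    rw [e, II_add (fun _ u v => u ^ 2 * 1) (fun _ u v => (u ^ 2 / (2 * u)) * v ^ 2) (by fun_prop)
      (fun t u v hu => by positivity) (fun t u v hu => by positivity),
      red (fun _ u => u ^ 2) (fun _ => 1) (by fun_prop) (by fun_prop) (fun v => by positivity),
      red (fun _ u => u ^ 2 / (2 * u)) (fun v => v ^ 2) (by fun_prop) (by fun_prop)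
      (fun v => by positivity)]
    rw [asm (x := c0 * 24) m0 (cN (fun u => u ^ 2) 3 1 (by norm_num) (fun u hu => by positivity)
      (fun u hu => by ring)) hr0 (by
        rw [hc]
        norm_num [Nat.factorial]
        linear_combination (Real.pi ^ 2 * 96) * hr),
      asm (x := c0 * 2) m2 (cN (fun u => u ^ 2 / (2 * u)) 2 (1 / 2) (by norm_num)
      (fun u hu => by positivity) (fun u hu => by field_simp)) hr0 (by
        rw [hc]
        norm_num [Nat.factorial]
        linear_combination (Real.pi ^ 2 * 8) * hr),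
      ← ENNReal.ofReal_add (by rw [hc]; positivity) (by rw [hc]; positivity)]
    congr 1
    ring
  · have e : (fun _ u v : ℝ => (1 + v ^ 2 / (2 * u)) * (u * v ^ 2)) =
        fun _ u v : ℝ => u * v ^ 2 + (u / (2 * u)) * v ^ 4 := by
      funext t u v
      ring
    rw [e, II_add (fun _ u v => u * v ^ 2) (fun _ u v => (u / (2 * u)) * v ^ 4) (by fun_prop)
      (fun t u v hu => by positivity) (fun t u v hu => by positivity),
      red (fun _ u => u) (fun v => v ^ 2) (by fun_prop) (by fun_prop) (fun v => by positivity),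
      red (fun _ u => u / (2 * u)) (fun v => v ^ 4) (by fun_prop) (by fun_prop)
      (fun v => by positivity)]
    rw [asm (x := c0 * 4) m2 (cN (fun u => u) 2 1 (by norm_num) (fun u hu => by positivity)
      (fun u hu => by ring)) hr0 (by
        rw [hc]
        norm_num [Nat.factorial]
        linear_combination (Real.pi ^ 2 * 16) * hr),
      asm (x := c0 * (3 / 2)) m4 (cN (fun u => u / (2 * u)) 1 (1 / 2) (by norm_num)
      (fun u hu => by positivity) (fun u hu => by field_simp)) (by positivity) (by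
        rw [hc]
        norm_num [Nat.factorial]
        linear_combination (Real.pi ^ 2 * 6) * hr),
      ← ENNReal.ofReal_add (by rw [hc]; positivity) (by rw [hc]; positivity)]
    congr 1
    ring
  · have e : (fun _ u v : ℝ => (1 + v ^ 2 / (2 * u)) * v ^ 4) =
        fun _ u v : ℝ => 1 * v ^ 4 + (1 / (2 * u)) * v ^ 6 := by
      funext t u v
      ring
    rw [e, II_add (fun _ u v => 1 * v ^ 4) (fun _ u v => (1 / (2 * u)) * v ^ 6) (by fun_prop)
      (fun t u v hu => by positivity) (fun t u v hu => by positivity),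
      red (fun _ u => 1) (fun v => v ^ 4) (by fun_prop) (by fun_prop) (fun v => by positivity),
      red (fun _ u => 1 / (2 * u)) (fun v => v ^ 6) (by fun_prop) (by fun_prop)
      (fun v => by positivity)]
    rw [asm (x := c0 * 3) m4 (cN (fun u => 1) 1 1 (by norm_num) (fun u hu => by positivity)
      (fun u hu => by ring)) (by positivity) (by
        rw [hc]
        norm_num [Nat.factorial]
        linear_combination (Real.pi ^ 2 * 12) * hr),
      asm (x := c0 * (15 / 4)) m6 (cN (fun u => 1 / (2 * u)) 0 (1 / 2) (by norm_num)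
      (fun u hu => by positivity) (fun u hu => by field_simp)) (by positivity) (by
        rw [hc]
        norm_num [Nat.factorial]
        linear_combination (Real.pi ^ 2 * 15) * hr),
      ← ENNReal.ofReal_add (by rw [hc]; positivity) (by rw [hc]; positivity)]
    congr 1
    ring

end Pool.Agent.W191.N4
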